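import Pool.Agent.SHA.Stmts

/-!
# Squad SHA, row CO1: the Helly number of one side of the construction
-/

set_option autoImplicit false

namespace Pool.Agent.SHA.H28

open Pool.Agent.Helper18_Helly

universe u

/-- **Row CO1.** -/
theorem co1 : CO1Stmt.{u} := by
  intro U P A B X J p₀ s a hs hPA hPB hAB hX hPa hp₀ hJ hJ₀
  have hPX : P ⊆ X := by rw [hX]; exact Set.subset_union_left
  have hZ : ∀ p ∈ P, X \ insert p (J p ∪ B) ⊆ X ∧ p ∉ X \ insert p (J p ∪ B) ∧
      ∀ p' ∈ P, p' ≠ p → p' ∈ X \ insert p (J p ∪ B) := by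
    intro p hp
    refine ⟨Set.sdiff_subset, fun h => h.2 (Set.mem_insert _ _), ?_⟩
    intro p' hp' hne
    refine ⟨hPX hp', ?_⟩
    rintro (h | h | h)
    · exact hne h
    · exact Set.disjoint_left.mp hPA hp' ((hJ p hp).1 h)
    · exact Set.disjoint_left.mp hPB hp' h
  have hal : IsAligned X (avoid X P (fun p => X \ insert p (J p ∪ B))) := avoid_aligned _ hPX
  refine ⟨hal, ?_⟩
  have hdd : ∀ T : Set U, T ⊆ X → ∀ D : Set U, T \ (X \ D) = T ∩ D := by
    intro T hT D
    ext x
    constructor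
    · rintro ⟨h1, h2⟩
      refine ⟨h1, ?_⟩
      by_contra h3
      exact h2 ⟨hT h1, h3⟩
    · rintro ⟨h1, h2⟩
      exact ⟨h1, fun h3 => h3.2 h2⟩
  have hcore : ∀ T : Set U, T ⊆ X →
      (core (avoid X P (fun p => X \ insert p (J p ∪ B))) s T = ∅ ↔
        ∀ p ∈ P, (T ∩ insert p (J p ∪ B)).encard ≤ s) := by
    intro T hT
    rw [core_avoid_iff hPX hZ hs hT]
    refine forall_congr' fun p => forall_congr' fun _ => ?_
    rw [hdd T hT]
  refine le_antisymm ?_ ?_
  · -- upper bound
    refine helly_le hal.empty_mem ?_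
    intro S hS _ hSc
    have h1 := (hcore S hS).mp hSc p₀ hp₀
    rw [← hJ₀] at h1
    have h2 : S ⊆ (S ∩ insert p₀ (J p₀ ∪ B)) ∪ ((P \ {p₀}) ∪ (A \ J p₀)) := by
      intro x hx
      by_cases hxD : x ∈ insert p₀ (J p₀ ∪ B)
      · exact Or.inl ⟨hx, hxD⟩
      · right
        have hx' := hS hx
        rw [hX] at hx'
        rcases hx' with h | h | h
        · exact Or.inl ⟨h, fun e => hxD (by rw [Set.mem_singleton_iff.mp e]; exact Set.mem_insert _ _)⟩
        · exact Or.inr ⟨h, fun e => hxD (Or.inr (Or.inl e))⟩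
        · exact absurd (Or.inr (Or.inr h)) hxD
    have h3 : (P \ {p₀}).encard + 1 = a := by
      have := Set.encard_sdiff_add_encard_of_subset (Set.singleton_subset_iff.mpr hp₀)
      rw [Set.encard_singleton, hPa] at this
      exact this
    have h4 : (A \ J p₀).encard + (J p₀).encard = A.encard :=
      Set.encard_sdiff_add_encard_of_subset (hJ p₀ hp₀).1
    calc S.encard ≤ ((S ∩ insert p₀ (J p₀ ∪ B)) ∪ ((P \ {p₀}) ∪ (A \ J p₀))).encard :=
          Set.encard_le_encard h2
      _ ≤ (S ∩ insert p₀ (J p₀ ∪ B)).encard + ((P \ {p₀}) ∪ (A \ J p₀)).encard :=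
          Set.encard_union_le _ _
      _ ≤ ((J p₀).encard + 1) + ((P \ {p₀}).encard + (A \ J p₀).encard) :=
          add_le_add h1 (Set.encard_union_le _ _)
      _ = ((A \ J p₀).encard + (J p₀).encard) + ((P \ {p₀}).encard + 1) := by ring
      _ = A.encard + a := by rw [h3, h4]
  · -- lower bound
    refine le_helly_of_infinite hal.empty_mem ?_
    intro n hn
    have h1 : (P ∪ A).encard = A.encard + a := by
      rw [Set.encard_union_eq hPA, hPa, add_comm]
    rw [← h1] at hn
    obtain ⟨T, hT, hTn⟩ := exists_subset_encard hn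
    have hTX : T ⊆ X := by
      refine hT.trans ?_
      rw [hX]
      exact Set.union_subset_union_right P Set.subset_union_left
    refine ⟨T, hTX, hTn, ?_⟩
    rw [hcore T hTX]
    intro p hp
    have h2 : T ∩ insert p (J p ∪ B) ⊆ insert p (J p) := by
      rintro x ⟨hxT, hx | hx | hx⟩
      · exact Or.inl hx
      · exact Or.inr hx
      · exfalso
        rcases hT hxT with h | h
        · exact Set.disjoint_left.mp hPB h hx
        · exact Set.disjoint_left.mp hAB h hx
    exact ((Set.encard_le_encard h2).trans (Set.encard_insert_le _ _)).trans (hJ p hp).2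

end Pool.Agent.SHA.H28
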