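import Pool.Agent.SHA.Stmts

/-!
# Squad SHA, row DES: the cyclic design
-/

set_option autoImplicit false

namespace Pool.Agent.SHA.H28

/-- the blocks of the design -/
def blk (q M k j : ℕ) : Finset ℕ :=
  (Finset.range M).filter fun t => (j = 0 ∧ t < q) ∨ ∃ r < k, (t + r * M) / q = j

theorem mem_blk {q M k j t : ℕ} :
    t ∈ blk q M k j ↔ t < M ∧ ((j = 0 ∧ t < q) ∨ ∃ r < k, (t + r * M) / q = j) := by
  rw [blk, Finset.mem_filter, Finset.mem_range]

theorem blk_zero {q M k : ℕ} (hq : 1 ≤ q) (hqM : q < M) : blk q M k 0 = Finset.range q := by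
  ext t
  rw [mem_blk, Finset.mem_range]
  constructor
  · rintro ⟨-, ⟨-, h⟩ | ⟨r, -, h⟩⟩
    · exact h
    · rw [Nat.div_eq_zero_iff] at h
      rcases h with h | h
      · omega
      · exact lt_of_le_of_lt (Nat.le_add_right _ _) h
  · intro h
    exact ⟨by omega, Or.inl ⟨rfl, h⟩⟩

theorem blk_card {q M k j : ℕ} (hq : 1 ≤ q) (hqM : q < M) : (blk q M k j).card ≤ q := by
  rcases Nat.eq_zero_or_pos j with hj | hj
  · rw [hj, blk_zero hq hqM, Finset.card_range]
  · have hsub : blk q M k j ⊆ (Finset.Ico (j * q) ((j + 1) * q)).image (fun x => x % M) := by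
      intro t ht
      obtain ⟨htM, ⟨h0, -⟩ | ⟨r, -, hr⟩⟩ := mem_blk.mp ht
      · omega
      · rw [Finset.mem_image]
        refine ⟨t + r * M, ?_, ?_⟩
        · rw [Finset.mem_Ico]
          constructor
          · rw [← hr]; exact Nat.div_mul_le_self _ _
          · have h := Nat.lt_mul_div_succ (t + r * M) (by omega : 0 < q)
            rw [hr, mul_comm q] at h
            exact h
        · rw [Nat.add_mul_mod_self_right, Nat.mod_eq_of_lt htM]
    refine (Finset.card_le_card hsub).trans (Finset.card_image_le.trans ?_)
    rw [Nat.card_Ico, ← Nat.sub_mul]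
    simp

/-- **Row DES.** -/
theorem des : DESStmt := by
  intro q a N hq ha hqN
  rcases eq_or_ne N ⊤ with rfl | hN
  · refine ⟨0, fun j => if j = 0 then Finset.range q else ∅, by omega, ?_, ?_, ?_, ?_, ?_⟩
    · intro j _ t _
      exact ENat.natCast_lt_top t
    · intro j _
      by_cases h : j = 0 <;> simp [h]
    · simp
    · intro t _; exact Nat.zero_le _
    · intro M hM
      exact absurd hM.symm (ENat.natCast_ne_top M)
  · obtain ⟨M, rfl⟩ := ENat.ne_top_iff_exists.mp hN
    have hqM : q < M := by exact_mod_cast hqN
    set k := a * q / M with hk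
    have hka : k < a := by
      rw [hk]
      apply Nat.div_lt_of_lt_mul
      nlinarith
    have hkM : k * M ≤ a * q := Nat.div_mul_le_self _ _
    refine ⟨k, blk q M k, hka, ?_, ?_, ?_, ?_, ?_⟩
    · intro j _ t ht
      exact_mod_cast (mem_blk.mp ht).1
    · intro j _
      exact blk_card hq hqM
    · rw [blk_zero hq hqM, Finset.card_range]
    · intro t ht
      have htM : t < M := by exact_mod_cast ht
      have h1 : (Finset.range k).card ≤
          ((Finset.range a).filter (fun j => t ∈ blk q M k j)).card := by
        refine Finset.card_le_card_of_injOn (fun r => (t + r * M) / q) ?_ ?_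
        · intro r hr
          have hr' : r < k := Finset.mem_range.mp (Finset.mem_coe.mp hr)
          rw [Finset.mem_coe, Finset.mem_filter, Finset.mem_range]
          refine ⟨?_, mem_blk.mpr ⟨htM, Or.inr ⟨r, hr', rfl⟩⟩⟩
          apply Nat.div_lt_of_lt_mul
          have : (r + 1) * M ≤ k * M := Nat.mul_le_mul_right _ hr'
          nlinarith
        · have key : ∀ r r' : ℕ, r < r' → (t + r * M) / q ≠ (t + r' * M) / q := by
            intro r r' hrr h
            have h2 : (r + 1) * M ≤ r' * M := Nat.mul_le_mul_right _ hrr
            have h3 : t + r * M + q ≤ t + r' * M := by nlinarith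
            have h4 : (t + r * M + q) / q ≤ (t + r' * M) / q := Nat.div_le_div_right h3
            rw [Nat.add_div_right _ (by omega)] at h4
            omega
          intro r _ r' _ h
          simp only at h
          rcases lt_trichotomy r r' with h5 | h5 | h5
          · exact absurd h (key r r' h5)
          · exact h5
          · exact absurd h.symm (key r' r h5)
      rwa [Finset.card_range] at h1
    · intro M' hM'
      have : M = M' := by exact_mod_cast hM'
      subst this
      have := Nat.lt_mul_div_succ (a * q) (by omega : 0 < M)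
      rw [← hk] at this
      nlinarith

end Pool.Agent.SHA.H28
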