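import Pool.Agent.SHA.Stmts

/-!
# Squad SHA, row SHP: the error term cannot be avoided
-/

set_option autoImplicit false

namespace Pool.Agent.SHA.H28

/-- **Row SHP.** -/
theorem shp : SHPStmt := by
  intro s m hs hm
  set q := ⌈2 * √(s : ℝ)⌉₊ with hq
  have hs1 : (1 : ℝ) ≤ s := by exact_mod_cast hs
  have hsq : 1 ≤ √(s : ℝ) := Real.one_le_sqrt.mpr hs1
  have hq2 : 2 * √(s : ℝ) ≤ q := Nat.le_ceil _
  have hq0 : (0 : ℝ) < q := by linarith
  have hq1 : 1 ≤ q := by
    have : (0 : ℝ) < q := hq0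
    exact_mod_cast this
  have hsm : s ≤ m := by omega
  have hmr : (m : ℝ) = s + q := by rw [hm]; push_cast; rfl
  have hcast : ((m - 1 : ℕ) : ℝ) = s + q - 1 := by
    rw [Nat.cast_sub (by omega), hmr]; norm_num
  rw [hcast, lead, theta_coe hs hsm hsm, hmr]
  have e : ((s : ℝ) + q - s) * ((s : ℝ) + q - s) / (((s : ℝ) + q) * (s + q) - (s : ℝ) ^ 2) =
      q / (2 * s + q) := by
    have h1 : ((s : ℝ) + q) * (s + q) - (s : ℝ) ^ 2 = q * (2 * s + q) := by ring
    have h2 : ((s : ℝ) + q - s) * ((s : ℝ) + q - s) = q * q := by ring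
    rw [h1, h2, mul_div_mul_left _ _ hq0.ne']
  rw [e]
  have h3 : (s : ℝ) * (q / (2 * s + q)) ≤ q / 2 := by
    have hp : 0 < 2 * (s : ℝ) + q := by positivity
    rw [← mul_div_assoc, div_le_div_iff₀ hp (by norm_num)]
    nlinarith
  nlinarith

end Pool.Agent.SHA.H28
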